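import Mathlib
import Pool.Agent.Helper43.EV.Goals

/-!
Packet EV-FIB (MP_d4e2f9_lc): fibrations of forced sets.
-/

set_option autoImplicit false

namespace Pool.Agent.Helper34.EV.FIB

open Pool.Agent.Helper43.EV

/-- Packet EV-FIB. -/
theorem t : Pool.Agent.Helper43.EV.FIB := by
  intro K G V Gb Vb _ _ _ _ _ _ N s O π ν hb hK hN hs hν hF A hAN hAs hA
  classical
  set P : Set Vb → Set V := fun Ab => {v | ∃ hv : v ∈ O, π ⟨v, hv⟩ ∈ Ab} with hP
  have claim : ∀ Ab : Set Vb, Fz K Gb Vb hb Ab → Fz K G V (ν * hb) (A ∪ P Ab) := by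
    intro Ab hAb
    induction hAb with
    | empty =>
      refine Fz.sub (B := A) ?_ hA
      rintro v (hv | ⟨_, hv⟩)
      · exact hv
      · exact hv.elim
    | sub hsub _ ih =>
      refine Fz.sub ?_ ih
      rintro v (hv | ⟨hv, hv'⟩)
      · exact Or.inl hv
      · exact Or.inr ⟨hv, hsub hv'⟩
    | tr g _ ih =>
      refine Fz.sub ?_ (Fz.tr (s g) ih)
      rintro v (hv | ⟨hv, w, hw, hw'⟩)
      · refine ⟨s g⁻¹ • v, Or.inl (hAs g⁻¹ v hv), ?_⟩
        change s g • s g⁻¹ • v = v
        rw [map_inv, smul_inv_smul]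
      · obtain ⟨h1, h2⟩ := hs g⁻¹ ⟨v, hv⟩
        refine ⟨s g⁻¹ • v, Or.inr ⟨h1, ?_⟩, ?_⟩
        · rw [h2]
          have hw2 : g • w = π ⟨v, hv⟩ := hw'
          rw [← hw2, inv_smul_smul]
          exact hw
        · change s g • s g⁻¹ • v = v
          rw [map_inv, smul_inv_smul]
    | @ext H A' hH hinv _ ih =>
      -- the group `N ⊔ H.map s` leaves `A ∪ P A'` invariant
      have key : ∀ g ∈ N ⊔ H.map s, ∀ v ∈ A ∪ P A', g • v ∈ A ∪ P A' := by
        let L : Subgroup G :=
          { carrier := {g | ∀ v, v ∈ A ∪ P A' ↔ g • v ∈ A ∪ P A'}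
            mul_mem' := fun {a b} ha hb v => by
              rw [mul_smul, ← ha (b • v)]
              exact hb v
            one_mem' := fun v => by rw [one_smul]
            inv_mem' := fun {a} ha v => by
              rw [ha (a⁻¹ • v), smul_inv_smul] }
        have hNL : N ≤ L := by
          have h1 : ∀ g ∈ N, ∀ v ∈ A ∪ P A', g • v ∈ A ∪ P A' := by
            rintro g hg v (hv | ⟨hv, hv'⟩)
            · exact Or.inl (hAN g hg v hv)
            · obtain ⟨h1, h2⟩ := hN g hg ⟨v, hv⟩
              exact Or.inr ⟨h1, by rw [h2]; exact hv'⟩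
          intro g hg v
          refine ⟨h1 g hg v, fun h => ?_⟩
          have h2 := h1 g⁻¹ (N.inv_mem hg) _ h
          rwa [inv_smul_smul] at h2
        have hHL : H.map s ≤ L := by
          have h1 : ∀ g ∈ H, ∀ v ∈ A ∪ P A', s g • v ∈ A ∪ P A' := by
            rintro g hg v (hv | ⟨hv, hv'⟩)
            · exact Or.inl (hAs g v hv)
            · obtain ⟨h1, h2⟩ := hs g ⟨v, hv⟩
              exact Or.inr ⟨h1, by rw [h2]; exact hinv g hg _ hv'⟩
          rintro _ ⟨g, hg, rfl⟩ v
          refine ⟨h1 g hg v, fun h => ?_⟩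
          have h2 := h1 g⁻¹ (H.inv_mem hg) _ h
          rwa [map_inv, inv_smul_smul] at h2
        intro g hg v hv
        exact ((sup_le hNL hHL) hg v).1 hv
      refine Fz.sub ?_ (Fz.ext (N ⊔ H.map s) (hK H hH) key ih)
      rintro v (hv | ⟨hv, hv' | hv'⟩)
      · exact Or.inl (Or.inl hv)
      · exact Or.inl (Or.inr ⟨hv, hv'⟩)
      · right
        have hv2 : hb ≤ (MulAction.orbit H (π ⟨v, hv⟩)).ncard := hv'
        change ν * hb ≤ (MulAction.orbit (N ⊔ H.map s : Subgroup G) v).ncard
        haveI : Fintype V := Fintype.ofFinite V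
        haveI : Fintype Vb := Fintype.ofFinite Vb
        set W : Set Vb := MulAction.orbit H (π ⟨v, hv⟩) with hW
        set Ω : Set V := MulAction.orbit (N ⊔ H.map s : Subgroup G) v with hΩ
        let f : V → Vb := fun a => if ha : a ∈ O then π ⟨a, ha⟩ else π ⟨v, hv⟩
        let S : Finset V := Finset.univ.filter fun a => a ∈ Ω ∧ ∃ ha : a ∈ O, π ⟨a, ha⟩ ∈ W
        let t : Finset Vb := Finset.univ.filter fun w => w ∈ W
        have h1 : ∀ a ∈ S, f a ∈ t := by
          intro a ha
          obtain ⟨-, -, h2, h3⟩ := Finset.mem_filter.1 ha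
          rw [Finset.mem_filter]
          refine ⟨Finset.mem_univ _, ?_⟩
          have : f a = π ⟨a, h2⟩ := dif_pos h2
          rw [this]
          exact h3
        have h2 : ∀ w ∈ t, ν ≤ (S.filter fun a => f a = w).card := by
          intro w hw
          obtain ⟨-, hw⟩ := Finset.mem_filter.1 hw
          obtain ⟨⟨g, hg⟩, hgw⟩ := hw
          have hgw' : g • π ⟨v, hv⟩ = w := hgw
          obtain ⟨h3, h4⟩ := hs g ⟨v, hv⟩
          have h3' : s g • v ∈ O := h3
          have h4' : π ⟨s g • v, h3'⟩ = w := by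
            rw [← hgw']
            exact h4
          refine (hν _ h3').trans ?_
          rw [← Set.ncard_coe_finset]
          refine Set.ncard_le_ncard ?_ (Set.toFinite _)
          rintro _ ⟨⟨n, hn⟩, rfl⟩
          change n • s g • v ∈ _
          obtain ⟨h5, h6⟩ := hN n hn ⟨s g • v, h3'⟩
          have h5' : n • s g • v ∈ O := h5
          have h6' : π ⟨n • s g • v, h5'⟩ = w := by
            rw [← h4']
            exact h6
          rw [Finset.mem_coe, Finset.mem_filter, Finset.mem_filter]
          refine ⟨⟨Finset.mem_univ _, ?_, h5', ?_⟩, ?_⟩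
          · refine ⟨⟨n * s g, Subgroup.mul_mem_sup hn ⟨g, hg, rfl⟩⟩, ?_⟩
            change (n * s g) • v = n • s g • v
            rw [mul_smul]
          · rw [h6', ← hgw']
            exact ⟨⟨g, hg⟩, rfl⟩
          · have : f (n • s g • v) = π ⟨n • s g • v, h5'⟩ := dif_pos h5'
            rw [this, h6']
        have h3 := Finset.mul_card_image_le_card_of_maps_to h1 ν h2
        have h4 : hb ≤ t.card := by
          rw [← Set.ncard_coe_finset]
          refine hv2.trans (Set.ncard_le_ncard ?_ (Set.toFinite _))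
          intro w hw
          rw [Finset.mem_coe, Finset.mem_filter]
          exact ⟨Finset.mem_univ _, hw⟩
        have h5 : S.card ≤ Ω.ncard := by
          rw [← Set.ncard_coe_finset]
          refine Set.ncard_le_ncard ?_ (Set.toFinite _)
          intro a ha
          exact (Finset.mem_filter.1 (Finset.mem_coe.1 ha)).2.1
        calc ν * hb ≤ ν * t.card := Nat.mul_le_mul_left _ h4
          _ ≤ S.card := h3
          _ ≤ Ω.ncard := h5
  refine Fz.sub ?_ (claim Set.univ hF)
  rintro v (hv | hv)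
  · exact Or.inl hv
  · exact Or.inr ⟨hv, trivial⟩

end Pool.Agent.Helper34.EV.FIB
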